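import Pool.Agent.H82.KT.TC

/-!
MP_ee74d2_an, theorem KT, row CYC: cycles of length four by Cauchy-Schwarz (twice).
-/

set_option autoImplicit false

open Pool.Agent.H82.KT

namespace Pool.Agent.H75.KTN

open scoped Classical in
private lemma cyc_key {β γ : Type} (S : Finset β) (φ : β → γ) (Y : Finset γ)
    (h : ∀ s ∈ S, φ s ∈ Y) :
    (S.card : ℝ) ^ 2 ≤ Y.card * (((S ×ˢ S).filter fun q => φ q.1 = φ q.2).card : ℝ) := by
  have h1 : (S.card : ℝ) = ∑ y ∈ Y, ((S.filter fun s => φ s = y).card : ℝ) := by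
    rw [Finset.card_eq_sum_card_fiberwise h]
    push_cast
    rfl
  have h2 : ((((S ×ˢ S).filter fun q => φ q.1 = φ q.2).card : ℕ) : ℝ) =
      ∑ y ∈ Y, ((S.filter fun s => φ s = y).card : ℝ) ^ 2 := by
    have hm : ∀ q ∈ (S ×ˢ S).filter (fun q => φ q.1 = φ q.2), φ q.1 ∈ Y := by
      intro q hq
      exact h _ (Finset.mem_product.1 (Finset.mem_filter.1 hq).1).1
    rw [Finset.card_eq_sum_card_fiberwise hm]
    push_cast
    refine Finset.sum_congr rfl fun y _ => ?_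
    have : (((S ×ˢ S).filter fun q => φ q.1 = φ q.2).filter fun q => φ q.1 = y) =
        (S.filter fun s => φ s = y) ×ˢ (S.filter fun s => φ s = y) := by
      ext q
      simp only [Finset.mem_filter, Finset.mem_product]
      constructor
      · rintro ⟨⟨⟨ha, hb⟩, hc⟩, hd⟩
        exact ⟨⟨ha, hd⟩, ⟨hb, hc ▸ hd⟩⟩
      · rintro ⟨⟨ha, hb⟩, ⟨hc, hd⟩⟩
        exact ⟨⟨⟨ha, hc⟩, hb.trans hd.symm⟩, hb⟩
    rw [this, Finset.card_product]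
    push_cast
    ring
  rw [h1, h2]
  exact sq_sum_le_card_mul_sum_sq

theorem pf_CYC : T_CYC := by
  classical
  intro τ α G f₀ f₁ f₂ Y₀ Y₁ Y₂ hG
  set D : Finset (τ × τ) := (G ×ˢ G).filter fun q => f₀ q.1 = f₀ q.2 with hD
  have h1 : (G.card : ℝ) ^ 2 ≤ Y₀.card * (D.card : ℝ) :=
    cyc_key G f₀ Y₀ fun g hg => (hG g hg).1
  have hmem : ∀ p ∈ D, p.1 ∈ G ∧ p.2 ∈ G ∧ f₀ p.1 = f₀ p.2 := by
    intro p hp
    rw [hD, Finset.mem_filter, Finset.mem_product] at hp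
    exact ⟨hp.1.1, hp.1.2, hp.2⟩
  have h2 : (D.card : ℝ) ^ 2 ≤ (Y₂ ×ˢ Y₁).card *
      (((D ×ˢ D).filter fun q => (f₂ q.1.1, f₁ q.1.2) = (f₂ q.2.1, f₁ q.2.2)).card : ℝ) := by
    have hk := cyc_key D (fun p => (f₂ p.1, f₁ p.2)) (Y₂ ×ˢ Y₁) fun p hp => by
      obtain ⟨ha, hb, _⟩ := hmem p hp
      exact Finset.mem_product.2 ⟨(hG _ ha).2.2, (hG _ hb).2.1⟩
    convert hk
  have h3 : (((D ×ˢ D).filter fun q => (f₂ q.1.1, f₁ q.1.2) = (f₂ q.2.1, f₁ q.2.2)).card : ℝ) ≤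
      (((G ×ˢ G) ×ˢ (G ×ˢ G)).filter fun q => f₀ q.1.1 = f₀ q.1.2 ∧ f₁ q.1.2 = f₁ q.2.1 ∧
      f₀ q.2.1 = f₀ q.2.2 ∧ f₂ q.2.2 = f₂ q.1.1).card := by
    refine Nat.cast_le.2 (Finset.card_le_card_of_injOn
      (fun q => (q.1, (q.2.2, q.2.1))) ?_ ?_)
    · intro q hq
      rw [Finset.mem_coe, Finset.mem_filter, Finset.mem_product] at hq
      obtain ⟨⟨ha, hb⟩, hc⟩ := hq
      obtain ⟨a1, a2, a3⟩ := hmem _ ha
      obtain ⟨b1, b2, b3⟩ := hmem _ hb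
      have hc1 : f₂ q.1.1 = f₂ q.2.1 := congrArg Prod.fst hc
      have hc2 : f₁ q.1.2 = f₁ q.2.2 := congrArg Prod.snd hc
      rw [Finset.mem_coe, Finset.mem_filter]
      refine ⟨Finset.mem_product.2 ⟨Finset.mem_product.2 ⟨a1, a2⟩,
        Finset.mem_product.2 ⟨b2, b1⟩⟩, a3, hc2, b3.symm, hc1.symm⟩
    · intro q _ q' _ h
      simp only [Prod.mk.injEq] at h
      exact Prod.ext h.1 (Prod.ext h.2.2 h.2.1)
  have h4 : (0 : ℝ) ≤ Y₀.card := Nat.cast_nonneg _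
  have h5 : ((G.card : ℝ) ^ 2) ^ 2 ≤ (Y₀.card * (D.card : ℝ)) ^ 2 :=
    pow_le_pow_left₀ (by positivity) h1 2
  calc (G.card : ℝ) ^ 4 = ((G.card : ℝ) ^ 2) ^ 2 := by ring
    _ ≤ (Y₀.card * (D.card : ℝ)) ^ 2 := h5
    _ = (Y₀.card : ℝ) ^ 2 * (D.card : ℝ) ^ 2 := by ring
    _ ≤ (Y₀.card : ℝ) ^ 2 * ((Y₂ ×ˢ Y₁).card *
        (((D ×ˢ D).filter fun q => (f₂ q.1.1, f₁ q.1.2) = (f₂ q.2.1, f₁ q.2.2)).card : ℝ)) :=
        mul_le_mul_of_nonneg_left h2 (by positivity)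
    _ ≤ (Y₀.card : ℝ) ^ 2 * ((Y₂ ×ˢ Y₁).card *
        ((((G ×ˢ G) ×ˢ (G ×ˢ G)).filter fun q => f₀ q.1.1 = f₀ q.1.2 ∧ f₁ q.1.2 = f₁ q.2.1 ∧
      f₀ q.2.1 = f₀ q.2.2 ∧ f₂ q.2.2 = f₂ q.1.1).card : ℝ)) := by
        refine mul_le_mul_of_nonneg_left (mul_le_mul_of_nonneg_left h3 ?_) ?_ <;> positivity
    _ = _ := by
        rw [Finset.card_product]
        push_cast
        ring

end Pool.Agent.H75.KTN
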