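import Pool.Agent.H82.KT.TC

/-!
MP_ee74d2_an, theorem KT, row IDN: the velocity of the first function of a cycle.
-/

set_option autoImplicit false

open Pool.Agent.H82.KT

namespace Pool.Agent.H75.KTN

private lemma idn_coef (s x a b a' b' : ℝ) (h1 : b - x ≠ 0) (h2 : s - a ≠ 0) (h3 : b - s ≠ 0)
    (h4 : a' - s ≠ 0) (h5 : b' - s ≠ 0) :
    (s - x) / (b - x) * (b - b') - (a' - a) / (s - a) * (s - b') =
      (a' - s) * (b' - s) * ((b - s) / (b - x)) *
        ((b' - x) / ((b' - s) * (a' - s)) - (b - x) / ((b - s) * (a - s))) := by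
  have h6 : a - s ≠ 0 := fun h => h2 (by linarith)
  field_simp
  ring

private lemma idn_div {p q J ω : ℝ} (hJ : 0 < J) (hω : 0 < ω) (hp : |p| ≤ J)
    (hq : ω * J < |q|) : |p / q| ≤ 1 / ω := by
  have hq0 : 0 < |q| := lt_trans (mul_pos hω hJ) hq
  rw [abs_div, div_le_div_iff₀ hq0 hω]
  nlinarith [mul_le_mul_of_nonneg_left hp hω.le]

theorem pf_IDN : T_IDN := by
  classical
  intro J ω ρ E L s x a b a' b' P V y₁ y₂ y₃ hJ hω hω1 hE hL hI hpat e1 e2 e3 e4 e5 e6 e7 hV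
  obtain ⟨⟨A1, A2, A3, A4⟩, ⟨B1, B2, B3, B4⟩, hPh, -⟩ := hpat
  have hωJ : 0 < ω * J := mul_pos hω hJ
  have hne : ∀ {z : ℝ}, ω * J < |z| → z ≠ 0 := by
    intro z hz h0
    rw [h0, abs_zero] at hz
    linarith
  have ms : s ∈ six s x a b a' b' := by simp [six]
  have mx : x ∈ six s x a b a' b' := by simp [six]
  have ma : a ∈ six s x a b a' b' := by simp [six]
  have mb : b ∈ six s x a b a' b' := by simp [six]
  have ma' : a' ∈ six s x a b a' b' := by simp [six]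
  have mb' : b' ∈ six s x a b a' b' := by simp [six]
  have hsa : ω * J < |(s : ℝ) - a| := by rw [abs_sub_comm]; exact A2
  set c : ℝ := ((s : ℝ) - x) / (b - x) with hc
  set d : ℝ := ((a' : ℝ) - a) / (s - a) with hd
  have nbx := hne A4
  have nsa := hne hsa
  have c1 : |c| ≤ 1 / ω := idn_div hJ hω (hI s ms x mx) A4
  have c2 : |1 - c| ≤ 1 / ω := by
    have : 1 - c = ((b : ℝ) - s) / (b - x) := by rw [hc]; field_simp; ring
    rw [this]
    exact idn_div hJ hω (hI b mb s ms) A4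
  have d1 : |d| ≤ 1 / ω := idn_div hJ hω (hI a' ma' a ma) hsa
  have d2 : |1 - d| ≤ 1 / ω := by
    have : 1 - d = ((s : ℝ) - a') / (s - a) := by rw [hd]; field_simp; ring
    rw [this]
    exact idn_div hJ hω (hI s ms a' ma') hsa
  -- the coefficient of `V 2`
  have hco : |c * (b - b') - d * (s - b')| ≤ 1 / ω := by
    have hid := idn_coef s x a b a' b' nbx nsa (hne A3) (hne B2) (hne B3)
    rw [← hc, ← hd] at hid
    rw [hid, abs_mul, abs_mul, abs_mul]
    have t1 : |(a' : ℝ) - s| ≤ J := hI a' ma' s ms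
    have t2 : |(b' : ℝ) - s| ≤ J := hI b' mb' s ms
    have t3 : |((b : ℝ) - s) / (b - x)| ≤ 1 / ω := idn_div hJ hω (hI b mb s ms) A4
    have t4 : |((b' : ℝ) - x) / (((b' : ℝ) - s) * (a' - s)) -
        ((b : ℝ) - x) / ((b - s) * (a - s))| ≤ 1 / J ^ 2 := by
      rw [abs_sub_comm]
      exact hPh
    calc |(a' : ℝ) - s| * |(b' : ℝ) - s| * |((b : ℝ) - s) / (b - x)| *
        |((b' : ℝ) - x) / (((b' : ℝ) - s) * (a' - s)) -
        ((b : ℝ) - x) / ((b - s) * (a - s))| ≤ J * J * (1 / ω) * (1 / J ^ 2) := by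
          gcongr
      _ = 1 / ω := by field_simp
  -- the errors
  set E1 : ℝ := (P 0 + s * V 0) - (P 1 + s * V 1) with hE1
  set E4 : ℝ := (P 1 + b * V 1) - (P 2 + b * V 2) with hE4
  set E7 : ℝ := (P 3 + s * V 3) - (P 2 + s * V 2) with hE7
  set E2 : ℝ := (P 0 + a' * V 0) - (P 3 + a' * V 3) with hE2
  set E3 : ℝ := P 1 + x * V 1 - y₁ with hE3
  set E5 : ℝ := P 2 + b' * V 2 - y₂ with hE5
  set E6 : ℝ := P 3 + a * V 3 - y₃ with hE6
  have e3' : |E7| ≤ 2 * E := by rw [hE7, abs_sub_comm]; exact e3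
  have e4' : |E2| ≤ 2 * E := by rw [hE2, abs_sub_comm]; exact e4
  have hcx : c * ((b : ℝ) - x) = s - x := by rw [hc]; field_simp
  have hdx : d * ((s : ℝ) - a) = a' - a := by rw [hd]; field_simp
  clear_value c d
  have key : ((s : ℝ) - a') * V 0 - (y₁ - y₃ + c * (y₂ - y₁) - d * (y₂ - y₃)) =
      (c * (b - b') - d * (s - b')) * V 2 + E1 - E2 + (1 - c) * E3 + c * (E4 + E5) -
        (1 - d) * E6 - d * (E7 + E5) := by
    have k1 : (s : ℝ) * V 1 = x * V 1 + c * (b - x) * V 1 := by rw [hcx]; ring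
    have k2 : (a' : ℝ) * V 3 = a * V 3 + d * (s - a) * V 3 := by rw [hdx]; ring
    rw [hE1, hE2, hE3, hE4, hE5, hE6, hE7]
    linear_combination k1 - k2
  have hbd : ∀ {u v A B : ℝ}, |u| ≤ A → |v| ≤ B → 0 ≤ A → |u * v| ≤ A * B := by
    intro u v A B h1 h2 h3
    rw [abs_mul]
    exact mul_le_mul h1 h2 (abs_nonneg _) h3
  have hω' : (0 : ℝ) ≤ 1 / ω := by positivity
  have q1 := hbd hco hV hω'
  have q2 := hbd c2 e5 hω'
  have q3 : |c * (E4 + E5)| ≤ 1 / ω * (3 * E) :=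
    hbd c1 (by linarith [abs_add_le E4 E5]) hω'
  have q4 := hbd d2 e7 hω'
  have q5 : |d * (E7 + E5)| ≤ 1 / ω * (3 * E) :=
    hbd d1 (by linarith [abs_add_le E7 E5]) hω'
  rw [key]
  have hfin : 4 * E ≤ 1 / ω * (4 * E) := by
    have : (1 : ℝ) ≤ 1 / ω := by rw [le_div_iff₀ hω]; linarith
    nlinarith
  have : (12 * E + L) / ω = 1 / ω * (4 * E) + 1 / ω * E + 1 / ω * (3 * E) + 1 / ω * E +
      1 / ω * (3 * E) + 1 / ω * L := by ring
  rw [this]
  rw [abs_le] at *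
  constructor <;> linarith [q1.1, q1.2, q2.1, q2.2, q3.1, q3.2, q4.1, q4.2, q5.1, q5.2, e1.1,
    e1.2, e4'.1, e4'.2]

end Pool.Agent.H75.KTN
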